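import Pool.Agent.Results.MP_e44225_nt.OneExceptionalSet
import Pool.Agent.R482.ST.Frac

/-!
# The error term in Vojta's inequality for curves at all points over all fractions near vectors of a sequence

Let `f_n`, `n = 0, 1, 2, …`, be positive functions on `(a₀, ∞)`, `a₀ ≥ 0`, such that `f_n(t) / t` is nondecreasing, and such
that the sequence `f_n(t)` has exponent of convergence at most `τ` for each `t > a₀`: for instance `f_n(t) = v_n t`
(dilatations; `τ` the exponent of convergence of `v_n > 0`), `f_n(t) = t ^ (v_n)` for exponents `v_n ≥ 1` (`τ = 0`), or the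
orbits `f_n(t) = g (g (⋯ g (t)))` of any map `g` with `g(t) > t` and `g(t) / t` nondecreasing (`τ = 0`).
Let `a_1, …, a_q` be distinct rational numbers, `q ≥ 3`, for example `q = 3`, and `κ > 0`. There is `ν > 0` such that for
`θ < 1` there is ONE set `E` of vectors of the plane, of Hausdorff dimension at most `(2 - ν + τ) / (1 - θ)`, such that for
ALL number fields `k`, ALL smooth projective curves `C` over `k` and ALL finite maps `t : C → ℙ¹` over `k` which are unramified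
outside the fibres over the `a_j` (by Belyi's theorem every curve has such maps, and every reduced divisor `D` of `C` is
contained in the union `F` of the fibres over the `a_j` for some such map), all finite sets `S` of primes, each vector `w`
outside `E`, `‖w‖ > a₀`, each `c` and all but finitely many `n`, with `r = f_n(‖w‖)`: ALL points `P` of `C` of all degrees over
ALL fractions `x` whose denominators and numerators differ by at most `c r ^ θ` from the components of `(r / ‖w‖) w` satisfy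
`m_S(F, P) + (deg K_C / N) h(x) < d(L) - (2 - κ) h(x)`, for all number fields `L` over which `P` is defined. For the terms see
`OneExceptionalSet`.
-/

set_option autoImplicit false

open Filter Topology Polynomial IsDedekindDomain NumberField

namespace Pool.Agent.Results.MP_e44225_nt.StarshapedPoints

/-- the functions `f n` are positive on `(a, ∞)`, `a ≥ 0`, and `f n x / x` is nondecreasing there -/
def Starshaped (a : ℝ) (f : ℕ → ℝ → ℝ) : Prop :=
  0 ≤ a ∧ ∀ n : ℕ, ∀ x y : ℝ, a < x → x ≤ y → 0 < f n x ∧ f n x / x ≤ f n y / y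

/-- for each `x > a` the exponent of convergence of the sequence `f n x` is at most `τ` -/
def ExpLe (a : ℝ) (f : ℕ → ℝ → ℝ) (τ : ℝ) : Prop :=
  ∀ x : ℝ, a < x → ∀ t : ℝ, τ < t → Summable (fun n : ℕ => (f n x) ^ (-t))

/-- The denominator and the numerator of `x` differ by at most `δ` from the components of the vector
`(g ‖w‖ / ‖w‖) w` (the radial extension of `g`; the norm is the maximum norm). -/
def Near (g : ℝ → ℝ) (δ : ℝ) (w : ℝ × ℝ) (x : ℚ) : Prop :=
  |(x.den : ℝ) - g ‖w‖ / ‖w‖ * w.1| ≤ δ ∧ |(x.num : ℝ) - g ‖w‖ / ‖w‖ * w.2| ≤ δ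

/-- the trivial bound of the truncated counting function -/
theorem counting_le {K : Type} [Field K] [NumberField K] {q : ℕ} (a : Fin q → K) {x : K} (hx : ∀ j, x ≠ a j) :
    OneExceptionalSet.counting a x ≤
      ∑ j, (Height.logHeight₁ x + Height.logHeight₁ (a j) + (Height.totalWeight K : ℝ) * Real.log 2) := by
  classical
  have hf : ∀ j, Pool.Agent.TH876.KR.form (Pool.Agent.Y728.MN.pt x) (Pool.Agent.Y728.MN.pt (a j)) ≠ 0 :=
    fun j => Pool.Agent.Y728.MN.form_pt_ne (hx j)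
  have hcond : ∀ v : HeightOneSpectrum (𝓞 K),
      (∃ j, v.valuation K (x - a j) < max (v.valuation K (a j)) 1 * max (v.valuation K x) 1) →
      v ∈ (Finset.univ : Finset (Fin q)).biUnion fun j => (Pool.Agent.Y728.MN.nr_fin (hf j)).toFinset := by
    rintro v ⟨j, hj⟩
    rw [Finset.mem_biUnion]
    refine ⟨j, Finset.mem_univ _, ?_⟩
    rw [Set.Finite.mem_toFinset]
    refine (Pool.Agent.Y728.MN.meet_iff v (Pool.Agent.Y728.MN.pt x) (Pool.Agent.Y728.MN.pt (a j))).1
      ((Pool.Agent.Y728.MN.meet_pt v x (a j)).2 ?_)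
    rw [mul_comm]
    exact hj
  have h1 : OneExceptionalSet.counting a x ≤
      Pool.Agent.Y728.MN.wt ((Finset.univ : Finset (Fin q)).biUnion fun j =>
        (Pool.Agent.Y728.MN.nr_fin (hf j)).toFinset) := by
    unfold OneExceptionalSet.counting
    rw [finsum_eq_sum_of_support_subset (s := (Finset.univ : Finset (Fin q)).biUnion fun j =>
        (Pool.Agent.Y728.MN.nr_fin (hf j)).toFinset)]
    · unfold Pool.Agent.Y728.MN.wt
      refine Finset.sum_le_sum fun v _ => ?_
      split_ifs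
      · exact le_rfl
      · exact (Pool.Agent.H951R3.V.ell_pos v).le
    · intro v hv
      rw [Function.mem_support] at hv
      rw [Finset.mem_coe]
      refine hcond v ?_
      by_contra hcon
      exact hv (if_neg hcon)
  refine h1.trans ((Pool.Agent.Y728.MN.wt_biUnion_le _ _).trans ?_)
  exact Finset.sum_le_sum fun j _ => Pool.Agent.Y728.MN.wt_nr_le (hf j)

/-- the fractions as vectors -/
def vec (x : ℚ) : ℝ × ℝ := ((x.den : ℝ), (x.num : ℝ))

lemma height_le {x : ℚ} {X : ℝ} (h : ‖vec x‖ ≤ X) : Height.logHeight₁ x ≤ Real.log X := by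
  have h1 : ((x.den : ℝ)) ≤ X := (le_abs_self _).trans ((norm_fst_le (vec x)).trans h)
  have h2 : |(x.num : ℝ)| ≤ X := (norm_snd_le (vec x)).trans h
  rw [Rat.logHeight₁_eq_log_max]
  have h3 : (0 : ℝ) < ((max x.num.natAbs x.den : ℕ) : ℝ) := by
    exact_mod_cast lt_of_lt_of_le x.pos (le_max_right _ _)
  refine Real.log_le_log h3 ?_
  rw [Nat.cast_max]
  refine max_le ?_ h1
  rw [Nat.cast_natAbs, Int.cast_abs]
  exact h2

lemma finite_vec (X : ℝ) : {x : ℚ | ‖vec x‖ ≤ X}.Finite :=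
  (Pool.Agent.R482.ST.finite_rat X).subset fun x hx =>
    ⟨(le_abs_self _).trans ((norm_fst_le (vec x)).trans hx), (norm_snd_le (vec x)).trans hx⟩

lemma count {q : ℕ} (hq : 3 ≤ q) (a : Fin q → ℚ) (Ex : Set ℚ) {ν C : ℝ} (hν : 0 < ν) (hC : 0 < C)
    (hfin : ∀ X : ℝ, 1 ≤ X → (OneExceptionalSet.Values ℚ a X).Finite)
    (hcount : ∀ X : ℝ, 1 ≤ X →
      ((Ex ∩ OneExceptionalSet.Values ℚ a X).ncard : ℝ) ≤ C * X ^ (2 / (q : ℝ) - ν)) :
    ∃ C' : ℝ, ∀ X : ℝ, 1 ≤ X → {x : ℚ | x ∈ {x : ℚ | x ∈ Ex ∧ ∀ j, x ≠ a j} ∧ ‖vec x‖ ≤ X}.Finite ∧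
      ({x : ℚ | x ∈ {x : ℚ | x ∈ Ex ∧ ∀ j, x ≠ a j} ∧ ‖vec x‖ ≤ X}.ncard : ℝ) ≤
        C' * X ^ (2 - min (q * ν) 1) := by
  have hq0 : (0 : ℝ) < q := by
    have : 0 < q := by omega
    exact_mod_cast this
  obtain ⟨c0, hc0⟩ : ∃ c0 : ℝ, c0 = ∑ j, (Height.logHeight₁ (a j) + (Height.totalWeight ℚ : ℝ) * Real.log 2) :=
    ⟨_, rfl⟩
  have hc00 : 0 ≤ c0 := by
    rw [hc0]
    refine Finset.sum_nonneg fun j _ => add_nonneg (Height.zero_le_logHeight₁ _) ?_
    exact mul_nonneg (Nat.cast_nonneg _) (Real.log_nonneg (by norm_num))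
  refine ⟨C * Real.exp c0 ^ (2 / (q : ℝ) - ν), fun X hX => ?_⟩
  have hX0 : 0 < X := by linarith
  have hfin1 : {x : ℚ | x ∈ {x : ℚ | x ∈ Ex ∧ ∀ j, x ≠ a j} ∧ ‖vec x‖ ≤ X}.Finite :=
    (finite_vec X).subset fun x hx => hx.2
  refine ⟨hfin1, ?_⟩
  set Y : ℝ := Real.exp c0 * X ^ (q : ℝ) with hY
  have hY1 : 1 ≤ Y := one_le_mul_of_one_le_of_one_le (Real.one_le_exp hc00) (Real.one_le_rpow hX hq0.le)
  have hlog : Real.log Y = c0 + q * Real.log X := by
    rw [hY, Real.log_mul (Real.exp_pos _).ne' (by positivity), Real.log_exp, Real.log_rpow hX0]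
  have hsub : {x : ℚ | x ∈ {x : ℚ | x ∈ Ex ∧ ∀ j, x ≠ a j} ∧ ‖vec x‖ ≤ X} ⊆
      Ex ∩ OneExceptionalSet.Values ℚ a Y := by
    rintro x ⟨⟨h1, h2⟩, h3⟩
    refine ⟨h1, fun j => ?_, ?_⟩
    · simp only [eq_ratCast, Rat.cast_id]
      exact h2 j
    · simp only [eq_ratCast, Rat.cast_id]
      refine (counting_le a h2).trans ?_
      rw [hlog, hc0]
      have h4 := height_le h3
      calc ∑ j, (Height.logHeight₁ x + Height.logHeight₁ (a j) + (Height.totalWeight ℚ : ℝ) * Real.log 2)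
          ≤ ∑ j, (Real.log X + (Height.logHeight₁ (a j) + (Height.totalWeight ℚ : ℝ) * Real.log 2)) := by
            refine Finset.sum_le_sum fun j _ => ?_
            linarith
        _ = _ := by
            rw [Finset.sum_add_distrib, Finset.sum_const, Finset.card_univ, Fintype.card_fin, nsmul_eq_mul]
            ring
  have hle : ((q : ℝ) * (2 / (q : ℝ) - ν)) ≤ 2 - min (q * ν) 1 := by
    have h1 : (q : ℝ) * (2 / (q : ℝ) - ν) = 2 - q * ν := by field_simp
    rw [h1]
    linarith [min_le_left ((q : ℝ) * ν) 1]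
  calc _ ≤ ((Ex ∩ OneExceptionalSet.Values ℚ a Y).ncard : ℝ) :=
        Nat.cast_le.2 (Set.ncard_le_ncard hsub ((hfin Y hY1).subset Set.inter_subset_right))
    _ ≤ C * Y ^ (2 / (q : ℝ) - ν) := hcount Y hY1
    _ = C * Real.exp c0 ^ (2 / (q : ℝ) - ν) * X ^ ((q : ℝ) * (2 / (q : ℝ) - ν)) := by
        rw [hY, Real.mul_rpow (Real.exp_pos _).le (by positivity), ← Real.rpow_mul hX0.le]
        ring
    _ ≤ C * Real.exp c0 ^ (2 / (q : ℝ) - ν) * X ^ (2 - min (q * ν) 1) := by
        refine mul_le_mul_of_nonneg_left (Real.rpow_le_rpow_of_exponent_le hX hle) ?_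
        positivity

/-- **Theorem.** Let `a_1, …, a_q` be distinct rational numbers, `q ≥ 3`, and `κ > 0`. There is `ν > 0` such that for all
starshaped functions `f` on `(a₀, ∞)` of exponent of convergence at most `τ ≥ 0` and `θ < 1` there is a set `E` of vectors of
Hausdorff dimension at most `(2 - ν + τ) / (1 - θ)` with the following property. Let `k` be a number field and `A` a Dedekind
domain, finite over `k[t]` and containing it (the ring of functions of a smooth affine curve over `k` which is finite over the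
`t`-line), of rank `N`, and let `y_{j 0} = t - a_j, y_{j 1}, …` be elements of the radical of the ideal `(t - a_j)` of `A`, for
example generators; write `g` for `q - 2 - (∑_j dim (A / (y_{j 0}, y_{j 1}, …))) / N`, which is `deg K_C / N` for generators and
`t` unramified outside the fibres over the `a_j` (`OneExceptionalSet.canonical`). Then for every finite set `S` of primes, each
`w` outside `E`, `‖w‖ > a₀`, each `c` and all but finitely many `n`, with `r = f_n(‖w‖)`: for ALL fractions `x` near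
`(r / ‖w‖) w` (`Near`, with `c r ^ θ`), all points `P` of the curve with `t(P) = x` and all number fields `L` containing `k` over
which `P` is defined satisfy `m_S(F, P) + g h(x) < d(L) - (2 - κ) h(x)`.
The functions `v_n x`, `v_n > 0`, are starshaped on `(0, ∞)`, of exponent `τ` if `v` has exponent of convergence at most
`τ`; the functions `x ^ (v_n)`, `v_n ≥ 1`, are starshaped on `(1, ∞)`, of exponent `0` if the sums of `exp (-t v_n)` converge
for `t > 0`; and the iterates of a map `g` with `g(x) > x` for `x > a` and `g(x) / x` nondecreasing are starshaped on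
`(a, ∞)`, of exponent `0`. -/
theorem result (q : ℕ) (hq : 3 ≤ q) (a : Fin q → ℚ) (ha : Function.Injective a) :
    (∀ κ : ℝ, 0 < κ → ∃ ν : ℝ, 0 < ν ∧ ∀ (f : ℕ → ℝ → ℝ) (a₀ τ θ : ℝ), Starshaped a₀ f → 0 ≤ τ → ExpLe a₀ f τ → θ < 1 →
      ∃ E : Set (ℝ × ℝ), dimH E ≤ ENNReal.ofReal ((2 - ν + τ) / (1 - θ)) ∧
        ∀ (k : Type) [Field k] [NumberField k] (A : Type) [CommRing A] [IsDedekindDomain A]
          [Algebra k A] [Algebra k[X] A] [IsScalarTower k k[X] A] [Module.Finite k[X] A]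
          [FaithfulSMul k[X] A] (u : Fin q → ℕ) (y : ∀ j, Fin (u j + 1) → A),
          (∀ j, y j 0 = OneExceptionalSet.coord k A - algebraMap k A (algebraMap ℚ k (a j))) →
          (∀ j i, y j i ∈ (Ideal.span
            {OneExceptionalSet.coord k A - algebraMap k A (algebraMap ℚ k (a j))}).radical) →
          ∀ S : Finset ℕ, (∀ p ∈ S, p.Prime) → ∀ w : ℝ × ℝ, a₀ < ‖w‖ → w ∉ E → ∀ c : ℝ,
            ∃ n₀ : ℕ, ∀ n : ℕ, n₀ ≤ n → ∀ x : ℚ, Near (f n) (c * (f n ‖w‖) ^ θ) w x →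
              ∀ (L : Type) [Field L] [NumberField L] [Algebra k L] (φ : A →ₐ[k] L),
                φ (OneExceptionalSet.coord k A) = algebraMap ℚ L x →
                  OneExceptionalSet.proximity S y φ + OneExceptionalSet.canonical k y * OneExceptionalSet.height x <
                    OneExceptionalSet.logDisc L - (2 - κ) * OneExceptionalSet.height x) ∧
    (∀ (v : ℕ → ℝ) (τ : ℝ), (∀ n, 0 < v n) → (∀ t : ℝ, τ < t → Summable (fun n : ℕ => (v n) ^ (-t))) →
      Starshaped 0 (fun n x => v n * x) ∧ ExpLe 0 (fun n x => v n * x) τ) ∧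
    (∀ v : ℕ → ℝ, (∀ n, 1 ≤ v n) → (∀ t : ℝ, 0 < t → Summable fun n : ℕ => Real.exp (-(t * v n))) →
      Starshaped 1 (fun n x => x ^ (v n)) ∧ ExpLe 1 (fun n x => x ^ (v n)) 0) ∧
    (∀ (a : ℝ) (g : ℝ → ℝ), 0 ≤ a → (∀ x y : ℝ, a < x → x ≤ y → g x / x ≤ g y / y) → (∀ x : ℝ, a < x → x < g x) →
      Starshaped a (fun n x => g^[n] x) ∧ ExpLe a (fun n x => g^[n] x) 0) := by
  refine ⟨?_, Pool.Agent.R482.ST.ex_mul, Pool.Agent.R482.ST.ex_pow, Pool.Agent.R482.ST.ex_orbit⟩
  intro κ hκ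
  obtain ⟨hval, hres⟩ := OneExceptionalSet.result ℚ q hq a ha
  obtain ⟨Ex, ⟨ν, C, hν, hC, hcount⟩, -, hE⟩ := hres κ hκ
  have hfin : ∀ X : ℝ, 1 ≤ X → (OneExceptionalSet.Values ℚ a X).Finite := by
    obtain ⟨⟨C1, h1⟩, -⟩ := hval 1 one_pos
    exact fun X hX => (h1 X hX).1
  have hq0 : (0 : ℝ) < q := by
    have : 0 < q := by omega
    exact_mod_cast this
  obtain ⟨C', hC'⟩ := count hq a Ex hν hC hfin hcount
  have hν' : 0 < min ((q : ℝ) * ν) 1 := lt_min (by positivity) one_pos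
  refine ⟨min (q * ν) 1, hν', fun f a₀ τ θ hf hτ hv hθ => ?_⟩
  have hθ' : 0 < 1 - θ := by linarith
  obtain ⟨E, hE1, hE2⟩ := Pool.Agent.R482.ST.radial_windows {x : ℚ | x ∈ Ex ∧ ∀ j, x ≠ a j} vec hf.1 hf.2 hv
    (s := 2 - min ((q : ℝ) * ν) 1) (by linarith [min_le_right ((q : ℝ) * ν) 1]) hτ hθ (by
      intro ε hε
      refine ⟨|C'|, fun X hX => ⟨(hC' X hX).1, (hC' X hX).2.trans ?_⟩⟩
      refine mul_le_mul (le_abs_self _) (Real.rpow_le_rpow_of_exponent_le hX (by linarith)) (by positivity)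
        (abs_nonneg _))
  refine ⟨E, hE1, ?_⟩
  intro k _ _ A _ _ _ _ _ _ _ u y hy1 hy2 S hS w hw hwE c
  obtain ⟨R, hRf, hR⟩ := (hE k A u y hy1 hy2).2 S hS
  obtain ⟨n1, hn1⟩ := hE2 w hw hwE c
  have hw0 : 0 < ‖w‖ := lt_of_le_of_lt hf.1 hw
  have hfp : ∀ n, 0 < f n ‖w‖ := fun n => (hf.2 n _ _ hw le_rfl).1
  -- a bound for the finite set of exceptions
  have hRf2 : (R ∪ Set.range a).Finite := hRf.union (Set.finite_range a)
  obtain ⟨M, hM⟩ : ∃ M : ℝ, ∀ x ∈ R ∪ Set.range a, ‖vec x‖ ≤ M := by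
    obtain ⟨M, hM⟩ := (hRf2.image fun x => ‖vec x‖).bddAbove
    exact ⟨M, fun x hx => hM ⟨x, hx, rfl⟩⟩
  set K : ℝ := max 1 (2 * |c|) with hK
  have hK1 : 1 ≤ K := le_max_left _ _
  have hK0 : 0 < K := by linarith
  have hl1 := Pool.Agent.R482.ST.large hfp (show 0 < τ + 1 by linarith) (hv ‖w‖ hw (τ + 1) (by linarith))
    (K ^ (1 / (1 - θ)))
  have hl2 := Pool.Agent.R482.ST.large hfp (show 0 < τ + 1 by linarith) (hv ‖w‖ hw (τ + 1) (by linarith))
    (2 * M + 1)
  obtain ⟨n2, hn2⟩ := eventually_atTop.1 (hl1.and hl2)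
  refine ⟨max n1 n2, fun n hn x hx L _ _ _ φ hφ => ?_⟩
  set r : ℝ := f n ‖w‖ with hr
  have hr0 : 0 < r := hfp n
  obtain ⟨g0, g0'⟩ := hn2 n ((le_max_right _ _).trans hn)
  have g1 : K ≤ r ^ (1 - θ) := by
    calc K = (K ^ (1 / (1 - θ))) ^ (1 - θ) := by
          rw [← Real.rpow_mul hK0.le, one_div_mul_cancel hθ'.ne', Real.rpow_one]
      _ ≤ r ^ (1 - θ) := Real.rpow_le_rpow (by positivity) g0 hθ'.le
  have g2 : c * r ^ θ ≤ r / 2 := by
    have e1 : r ^ θ * r ^ (1 - θ) = r := by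
      rw [← Real.rpow_add hr0, show θ + (1 - θ) = 1 by ring, Real.rpow_one]
    have e2 : (0 : ℝ) < r ^ θ := by positivity
    have e3 : 2 * |c| ≤ r ^ (1 - θ) := (le_max_right _ _).trans g1
    have e4 : r ^ θ * (2 * |c|) ≤ r := (mul_le_mul_of_nonneg_left e3 e2.le).trans e1.le
    have e5 : c * r ^ θ ≤ |c| * r ^ θ := mul_le_mul_of_nonneg_right (le_abs_self c) e2.le
    linarith
  have hnear : ‖vec x - Pool.Agent.R482.ST.rad (f n) w‖ ≤ c * r ^ θ := by
    rw [Prod.norm_def]
    exact max_le hx.1 hx.2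
  have hnorm := Pool.Agent.R482.ST.near_norm hw0 hr0.le hnear
  have hbig : M < ‖vec x‖ := by
    have h1 := (abs_le.1 hnorm).1
    have h2 : f n ‖w‖ = r := rfl
    rw [h2] at h1
    linarith
  have hx1 : x ∉ R ∪ Set.range a := fun h => absurd (hM x h) (not_le.2 hbig)
  have hxR : x ∉ R := fun h => hx1 (Or.inl h)
  have hxa : ∀ j, x ≠ a j := fun j h => hx1 (Or.inr ⟨j, h.symm⟩)
  have hxE : x ∉ Ex := fun h =>
    absurd hnear (not_le.2 (hn1 n ((le_max_left _ _).trans hn) x ⟨h, hxa⟩))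
  refine hR x hxE hxR (fun j => ?_) L φ hφ
  rw [eq_ratCast, Rat.cast_id]
  exact hxa j

end Pool.Agent.Results.MP_e44225_nt.StarshapedPoints
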